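import Pool.Agent.helper90.IV.Spec

set_option autoImplicit false

open scoped BigOperators

namespace Pool.Agent.helper35.IV

open Pool.Agent.IV Pool.Agent.helper23.TH Pool.Agent.KS

noncomputable section

open Classical

/-- tuples which are bad at the coordinate `i` -/
lemma CPY_coord {ι V : Type} [Fintype ι] [DecidableEq ι] (S : ι → Finset V) (P : (ι → V) → Prop)
    (i : ι) (E : ℕ)
    (hE : ∀ f ∈ Fintype.piFinset S, ((S i).filter fun v => P (Function.update f i v)).card ≤ E) :
    ((Fintype.piFinset S).filter P).card * (S i).card ≤ E * (Fintype.piFinset S).card := by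
  set T := ((Fintype.piFinset S) ×ˢ (S i)).filter fun p => P (Function.update p.1 i p.2) with hT
  have h1 : T.card ≤ E * (Fintype.piFinset S).card := by
    have : T.card = ∑ f ∈ Fintype.piFinset S,
        ((S i).filter fun v => P (Function.update f i v)).card := by
      rw [hT, Finset.card_filter, Finset.sum_product]
      refine Finset.sum_congr rfl fun f _ => ?_
      rw [Finset.card_filter]
    rw [this]
    calc _ ≤ ∑ f ∈ Fintype.piFinset S, E := Finset.sum_le_sum hE
      _ = E * (Fintype.piFinset S).card := by rw [Finset.sum_const, smul_eq_mul, mul_comm]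
  refine le_trans ?_ h1
  rw [← Finset.card_product]
  refine Finset.card_le_card_of_injOn (fun p => (Function.update p.1 i p.2, p.1 i)) ?_ ?_
  · intro p hp
    have hp' := Finset.mem_product.1 (Finset.mem_coe.1 hp)
    have hp1 := Finset.mem_filter.1 hp'.1
    refine Finset.mem_coe.2 (Finset.mem_filter.2 ⟨Finset.mem_product.2 ⟨?_, ?_⟩, ?_⟩)
    · refine Fintype.mem_piFinset.2 fun j => ?_
      show Function.update p.1 i p.2 j ∈ S j
      by_cases hj : j = i
      · subst hj
        rw [Function.update_self]
        exact hp'.2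
      · rw [Function.update_of_ne hj]
        exact Fintype.mem_piFinset.1 hp1.1 j
    · exact Fintype.mem_piFinset.1 hp1.1 i
    · show P (Function.update (Function.update p.1 i p.2) i (p.1 i))
      rw [Function.update_idem, Function.update_eq_self]
      exact hp1.2
  · intro p _ p' _ h
    have h' := Prod.mk.inj h
    have e1 : p.1 = p'.1 := by
      have : Function.update (Function.update p.1 i p.2) i (p.1 i) =
          Function.update (Function.update p'.1 i p'.2) i (p'.1 i) := by
        rw [h'.1, h'.2]
      simpa [Function.update_idem, Function.update_eq_self] using this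
    have e2 : p.2 = p'.2 := by
      have := congrFun h'.1 i
      simpa using this
    exact Prod.ext e1 e2

/-- the choice of one tuple -/
lemma CPY_step {V K : Type} {A : V → V → Prop} {lam : Fin 2 → V → V → K} (hP : PrE A lam)
    {m t : ℕ} (S : Fin m → Finset V) (ys : Fin m → Fin t → V)
    (hA : ∀ i, ∀ x ∈ S i, ∀ k, A x (ys i k)) (hinj : ∀ i k k', ys i k = ys i k' → k = k')
    (F : Finset V) (C : Fin 2 → Finset K) (N : ℕ) (hF : F.card ≤ N) (hC : ∀ l, (C l).card ≤ N)
    (L c' : ℝ) (hc : 0 < c')
    (hL : (m : ℝ) * ((N + m + 2 * t * (N + m * t) : ℕ) : ℝ) < c' * L)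
    (hS : ∀ i, L ≤ (S i).card) (G : Finset (Fin m → V)) (hG : ∀ x ∈ G, ∀ i, x i ∈ S i)
    (hcard : c' * ∏ i, ((S i).card : ℝ) ≤ G.card) :
    ∃ x ∈ G, (∀ i, x i ∉ F) ∧ (∀ l i k, lam l (x i) (ys i k) ∉ C l) ∧
      (∀ i i', x i = x i' → i = i') ∧
      ∀ l i k i' k', lam l (x i) (ys i k) = lam l (x i') (ys i' k') → i = i' ∧ k = k' := by
  set E : ℕ := N + m + 2 * t * (N + m * t) with hEdef
  -- bad at `i`
  obtain ⟨P, hPdef⟩ : ∃ P : Fin m → (Fin m → V) → Prop, ∀ i f, P i f ↔
      (f i ∈ F ∨ (∃ i', i' ≠ i ∧ f i = f i') ∨ ∃ l k, lam l (f i) (ys i k) ∈ C l ∨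
      ∃ i' k', i' ≠ i ∧ lam l (f i) (ys i k) = lam l (f i') (ys i' k')) :=
    ⟨_, fun _ _ => Iff.rfl⟩
  have hcount : ∀ i, ∀ f ∈ Fintype.piFinset S,
      ((S i).filter fun v => P i (Function.update f i v)).card ≤ E := by
    intro i f _
    set F' : Finset V := F ∪ Finset.univ.image f with hF'
    set C' : Fin 2 → Finset K := fun l => C l ∪
      (Finset.univ : Finset (Fin m × Fin t)).image fun p => lam l (f p.1) (ys p.1 p.2) with hC'
    have hF'c : F'.card ≤ N + m := by
      refine (Finset.card_union_le _ _).trans (add_le_add hF ?_)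
      exact Finset.card_image_le.trans (by simp)
    have hC'c : ∀ l, (C' l).card ≤ N + m * t := by
      intro l
      refine (Finset.card_union_le _ _).trans (add_le_add (hC l) ?_)
      exact Finset.card_image_le.trans (by simp)
    have hsub : ((S i).filter fun v => P i (Function.update f i v)) ⊆
        F' ∪ (Finset.univ : Finset (Fin 2 × Fin t)).biUnion fun p =>
          (S i).filter fun v => lam p.1 v (ys i p.2) ∈ C' p.1 := by
      intro v hv
      obtain ⟨hvS, hv⟩ := Finset.mem_filter.1 hv
      rw [hPdef] at hv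
      simp only [Function.update_self] at hv
      rcases hv with hv | ⟨i', hi', hv⟩ | ⟨l, k, hv⟩
      · exact Finset.mem_union_left _ (Finset.mem_union_left _ hv)
      · rw [Function.update_of_ne hi'] at hv
        refine Finset.mem_union_left _ (Finset.mem_union_right _ ?_)
        exact Finset.mem_image.2 ⟨i', Finset.mem_univ _, hv.symm⟩
      · refine Finset.mem_union_right _ (Finset.mem_biUnion.2 ⟨(l, k), Finset.mem_univ _, ?_⟩)
        refine Finset.mem_filter.2 ⟨hvS, ?_⟩
        rcases hv with hv | ⟨i', k', hi', hv⟩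
        · exact Finset.mem_union_left _ hv
        · rw [Function.update_of_ne hi'] at hv
          refine Finset.mem_union_right _ ?_
          exact Finset.mem_image.2 ⟨(i', k'), Finset.mem_univ _, hv.symm⟩
    refine (Finset.card_le_card hsub).trans ((Finset.card_union_le _ _).trans ?_)
    have h2 : ((Finset.univ : Finset (Fin 2 × Fin t)).biUnion fun p =>
          (S i).filter fun v => lam p.1 v (ys i p.2) ∈ C' p.1).card ≤ 2 * t * (N + m * t) := by
      refine Finset.card_biUnion_le.trans ?_
      calc _ ≤ ∑ _p : Fin 2 × Fin t, (N + m * t) := by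
            refine Finset.sum_le_sum fun p _ => ?_
            refine le_trans ?_ (hC'c p.1)
            refine Finset.card_le_card_of_injOn (fun v => lam p.1 v (ys i p.2)) ?_ ?_
            · intro v hv
              exact Finset.mem_coe.2 (Finset.mem_filter.1 (Finset.mem_coe.1 hv)).2
            · intro v hv v' hv' h
              have h1 := hA i v (Finset.mem_filter.1 (Finset.mem_coe.1 hv)).1 p.2
              have h2 := hA i v' (Finset.mem_filter.1 (Finset.mem_coe.1 hv')).1 p.2
              have h3 : lam p.1 v (ys i p.2) = lam p.1 v' (ys i p.2) := h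
              rw [hP.csymm _ _ _ h1, hP.csymm _ _ _ h2] at h3
              exact hP.prop _ _ _ _ (hP.symm _ _ h1) (hP.symm _ _ h2) h3
        _ = 2 * t * (N + m * t) := by simp [mul_assoc]
    have := add_le_add hF'c h2
    omega
  by_contra hcon
  push Not at hcon
  have hbad : ∀ x ∈ G, ∃ i, P i x := by
    intro x hx
    by_contra hno'
    have hno : ∀ i, ¬ (x i ∈ F ∨ (∃ i', i' ≠ i ∧ x i = x i') ∨ ∃ l k, lam l (x i) (ys i k) ∈ C l ∨
        ∃ i' k', i' ≠ i ∧ lam l (x i) (ys i k) = lam l (x i') (ys i' k')) :=
      fun i hi => hno' ⟨i, (hPdef i x).2 hi⟩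
    have a1 : ∀ i, x i ∉ F := fun i hi => hno i (Or.inl hi)
    have a2 : ∀ l i k, lam l (x i) (ys i k) ∉ C l := fun l i k hk =>
      hno i (Or.inr (Or.inr ⟨l, k, Or.inl hk⟩))
    have a3 : ∀ i i', x i = x i' → i = i' := by
      intro i i' h
      by_contra hne
      exact hno i (Or.inr (Or.inl ⟨i', fun h' => hne h'.symm, h⟩))
    obtain ⟨l, i, k, i', k', hk, hne⟩ := hcon x hx a1 a2 a3
    by_cases hi : i' = i
    · subst hi
      have hk' : k = k' := by
        apply hinj i'
        exact hP.prop l (x i') _ _ (hA i' _ (hG x hx i') k) (hA i' _ (hG x hx i') k') hk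
      exact hne rfl hk'
    · exact hno i (Or.inr (Or.inr ⟨l, k, Or.inr ⟨i', k', hi, hk⟩⟩))
  have hsubG : G ⊆ (Finset.univ : Finset (Fin m)).biUnion fun i =>
      (Fintype.piFinset S).filter (P i) := by
    intro x hx
    obtain ⟨i, hi⟩ := hbad x hx
    exact Finset.mem_biUnion.2 ⟨i, Finset.mem_univ _,
      Finset.mem_filter.2 ⟨Fintype.mem_piFinset.2 (hG x hx), hi⟩⟩
  have hGle : (G.card : ℝ) ≤ ∑ i, (((Fintype.piFinset S).filter (P i)).card : ℝ) := by
    exact_mod_cast (Finset.card_le_card hsubG).trans Finset.card_biUnion_le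
  have hLpos : 0 < L := by
    by_contra hneg
    have : c' * L ≤ 0 := mul_nonpos_of_nonneg_of_nonpos hc.le (not_lt.1 hneg)
    have h0 : (0 : ℝ) ≤ (m : ℝ) * (E : ℝ) := by positivity
    linarith
  set Q : ℝ := ∏ i, ((S i).card : ℝ) with hQ
  have hQpos : 0 < Q := Finset.prod_pos fun i _ => lt_of_lt_of_le hLpos (hS i)
  have hpi : ((Fintype.piFinset S).card : ℝ) = Q := by
    rw [Fintype.card_piFinset, hQ]
    push_cast
    rfl
  have hi : ∀ i, (((Fintype.piFinset S).filter (P i)).card : ℝ) * L ≤ (E : ℝ) * Q := by
    intro i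
    have h1 : (((Fintype.piFinset S).filter (P i)).card : ℝ) * ((S i).card : ℝ) ≤
        (E : ℝ) * ((Fintype.piFinset S).card : ℝ) := by
      exact_mod_cast CPY_coord S (P i) i E (hcount i)
    rw [hpi] at h1
    exact le_trans (mul_le_mul_of_nonneg_left (hS i) (by positivity)) h1
  have hsum : (∑ i, (((Fintype.piFinset S).filter (P i)).card : ℝ)) * L ≤ (m : ℝ) * ((E : ℝ) * Q) := by
    rw [Finset.sum_mul]
    refine (Finset.sum_le_sum fun i _ => hi i).trans ?_
    simp
  have h1 : c' * Q * L ≤ (m : ℝ) * ((E : ℝ) * Q) :=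
    le_trans (mul_le_mul_of_nonneg_right (hcard.trans hGle) hLpos.le) hsum
  have h2 : (m : ℝ) * ((E : ℝ) * Q) < c' * Q * L := by
    have := mul_lt_mul_of_pos_right hL hQpos
    calc (m : ℝ) * ((E : ℝ) * Q) = (m : ℝ) * (E : ℝ) * Q := by ring
      _ < c' * L * Q := this
      _ = c' * Q * L := by ring
  exact absurd h1 (not_le.2 h2)

theorem CPY : CPY_stmt := by
  intro s h pj q c' hc
  obtain ⟨N, hN⟩ : ∃ N : ℕ, N = Fintype.card (cat s h pj).R + q * (h + 1) + q * (h + 1) * (s - 2) :=
    ⟨_, rfl⟩
  obtain ⟨E, hE⟩ : ∃ E : ℕ, E = N + (h + 1) + 2 * (s - 2) * (N + (h + 1) * (s - 2)) := ⟨_, rfl⟩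
  refine ⟨(((h + 1 : ℕ) : ℝ) * (E : ℝ) + 1) / c', by positivity, ?_⟩
  intro V K _ A B lam M y G hP hBA hy hL hG hcard
  have hL' : ((h + 1 : ℕ) : ℝ) * ((N + (h + 1) + 2 * (s - 2) * (N + (h + 1) * (s - 2)) : ℕ) : ℝ) <
      c' * ((((h + 1 : ℕ) : ℝ) * (E : ℝ) + 1) / c') := by
    rw [mul_div_cancel₀ _ hc.ne', ← hE]
    linarith
  let ys : Fin (h + 1) → Fin (s - 2) → V := fun i k => y ⟨.inl i, k⟩
  have hA : ∀ i, ∀ x ∈ Gh B M y i, ∀ k, A x (ys i k) := by
    intro i x hx k
    exact hBA _ _ ((Finset.mem_filter.1 hx).2 k)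
  have hinj : ∀ i k k', ys i k = ys i k' → k = k' := by
    intro i k k' hk
    have h2 : (⟨.inl i, k⟩ : (cat s h pj).R) = ⟨.inl i, k'⟩ := hy hk
    exact eq_of_heq (Sigma.mk.inj h2).2
  have key : ∀ n : ℕ, n ≤ q → ∃ X : ℕ → Fin (h + 1) → V, (∀ j, j < n → X j ∈ G) ∧
      (∀ j i j' i', j < n → j' < n → X j i = X j' i' → j = j' ∧ i = i') ∧
      (∀ j i r, j < n → X j i ≠ y r) ∧
      ∀ l j i k j' i' k', j < n → j' < n → lam l (X j i) (ys i k) = lam l (X j' i') (ys i' k') →
        j = j' ∧ i = i' ∧ k = k' := by
    intro n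
    induction n with
    | zero =>
      intro _
      by_cases hV : Nonempty (Fin (h + 1) → V)
      · obtain ⟨f⟩ := hV
        exact ⟨fun _ => f, by simp, by simp, by simp, by simp⟩
      · exfalso
        -- the product of the cardinalities is positive
        have hLpos : (0 : ℝ) < (((h + 1 : ℕ) : ℝ) * (E : ℝ) + 1) / c' := by positivity
        refine hV ⟨fun i => ?_⟩
        have : 0 < (Gh B M y i).card := by
          have := lt_of_lt_of_le hLpos (hL i)
          exact_mod_cast this
        exact (Finset.card_pos.1 this).choose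
    | succ n ih =>
      intro hn
      obtain ⟨X, hX1, hX2, hX3, hX4⟩ := ih (by omega)
      set F : Finset V := Finset.univ.image y ∪
        ((Finset.range n) ×ˢ (Finset.univ : Finset (Fin (h + 1)))).image fun p => X p.1 p.2 with hF
      set C : Fin 2 → Finset K := fun l =>
        ((Finset.range n) ×ˢ (Finset.univ : Finset (Fin (h + 1) × Fin (s - 2)))).image
          fun p => lam l (X p.1 p.2.1) (ys p.2.1 p.2.2) with hC
      have hFc : F.card ≤ N := by
        have h1 : (Finset.univ.image y).card ≤ Fintype.card (cat s h pj).R :=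
          Finset.card_image_le.trans (by simp)
        have h2 : (((Finset.range n) ×ˢ (Finset.univ : Finset (Fin (h + 1)))).image
            fun p => X p.1 p.2).card ≤ q * (h + 1) := by
          refine Finset.card_image_le.trans ?_
          rw [Finset.card_product]
          simp only [Finset.card_range, Finset.card_univ, Fintype.card_fin]
          exact Nat.mul_le_mul_right _ (by omega)
        have := Finset.card_union_le (Finset.univ.image y)
          (((Finset.range n) ×ˢ (Finset.univ : Finset (Fin (h + 1)))).image fun p => X p.1 p.2)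
        have h3 : F.card ≤ Fintype.card (cat s h pj).R + q * (h + 1) := this.trans (add_le_add h1 h2)
        rw [hN]
        exact h3.trans (Nat.le_add_right _ _)
      have hCc : ∀ l, (C l).card ≤ N := by
        intro l
        refine Finset.card_image_le.trans ?_
        rw [Finset.card_product]
        simp only [Finset.card_range, Finset.card_univ, Fintype.card_prod, Fintype.card_fin]
        have h1 : n * ((h + 1) * (s - 2)) ≤ q * (h + 1) * (s - 2) := by
          rw [← mul_assoc]
          exact Nat.mul_le_mul_right _ (Nat.mul_le_mul_right _ (by omega))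
        rw [hN]
        exact h1.trans (Nat.le_add_left _ _)
      obtain ⟨x, hxG, hxF, hxC, hx1, hx2⟩ := CPY_step hP (fun i => Gh B M y i) ys hA hinj F C N
        hFc hCc _ c' hc hL' hL G hG hcard
      have hXF : ∀ j i, j < n → X j i ∈ F := fun j i hj =>
        Finset.mem_union_right _ (Finset.mem_image.2 ⟨(j, i), by simp [hj], rfl⟩)
      have hXC : ∀ l j i k, j < n → lam l (X j i) (ys i k) ∈ C l := fun l j i k hj =>
        Finset.mem_image.2 ⟨(j, (i, k)), by simp [hj], rfl⟩
      refine ⟨Function.update X n x, ?_, ?_, ?_, ?_⟩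
      · intro j hj
        by_cases hjn : j = n
        · subst hjn
          rw [Function.update_self]
          exact hxG
        · rw [Function.update_of_ne hjn]
          exact hX1 j (by omega)
      · intro j i j' i' hj hj' he
        by_cases hjn : j = n <;> by_cases hjn' : j' = n
        · subst hjn
          subst hjn'
          rw [Function.update_self] at he
          exact ⟨rfl, hx1 _ _ he⟩
        · subst hjn
          rw [Function.update_self, Function.update_of_ne hjn'] at he
          exact absurd (he ▸ hXF j' i' (by omega)) (hxF i)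
        · subst hjn'
          rw [Function.update_self, Function.update_of_ne hjn] at he
          exact absurd (he ▸ hXF j i (by omega)) (hxF i')
        · rw [Function.update_of_ne hjn, Function.update_of_ne hjn'] at he
          exact hX2 _ _ _ _ (by omega) (by omega) he
      · intro j i r hj
        by_cases hjn : j = n
        · subst hjn
          rw [Function.update_self]
          intro he
          exact hxF i (he ▸ Finset.mem_union_left _ (Finset.mem_image.2 ⟨r, Finset.mem_univ _, rfl⟩))
        · rw [Function.update_of_ne hjn]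
          exact hX3 j i r (by omega)
      · intro l j i k j' i' k' hj hj' he
        by_cases hjn : j = n <;> by_cases hjn' : j' = n
        · subst hjn
          subst hjn'
          rw [Function.update_self] at he
          exact ⟨rfl, hx2 _ _ _ _ _ he⟩
        · subst hjn
          rw [Function.update_self, Function.update_of_ne hjn'] at he
          exact absurd (he ▸ hXC l j' i' k' (by omega)) (hxC l i k)
        · subst hjn'
          rw [Function.update_self, Function.update_of_ne hjn] at he
          exact absurd (he ▸ hXC l j i k (by omega)) (hxC l i' k')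
        · rw [Function.update_of_ne hjn, Function.update_of_ne hjn'] at he
          exact hX4 _ _ _ _ _ _ _ (by omega) (by omega) he
  obtain ⟨X, h1, h2, h3, h4⟩ := key q le_rfl
  refine ⟨fun j => X j, fun j => h1 j j.2, ?_, fun j i r => h3 j i r j.2, ?_⟩
  · intro j i j' i' he
    obtain ⟨e1, e2⟩ := h2 j i j' i' j.2 j'.2 he
    exact ⟨Fin.ext e1, e2⟩
  · intro l j i k j' i' k' he
    obtain ⟨e1, e2, e3⟩ := h4 l j i k j' i' k' j.2 j'.2 he
    exact ⟨Fin.ext e1, e2, e3⟩

end

end Pool.Agent.helper35.IV
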